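import Mathlib
import Pool.Agent.H752.SV.Stubs

/-!
# V2: infinitely many places are not leading places (helper896)
-/

namespace Pool.Agent.H752.SV

theorem t_nl : St_nl := by
  intro F _ S hS
  by_contra hfin
  rw [Set.not_infinite] at hfin
  apply hS
  obtain ⟨I, hI⟩ : ∃ I : Set ℕ, I = {i : ℕ | ∀ v ∈ S, v i ≠ 0 → ∃ j, i < j ∧ v j ≠ 0} := ⟨_, rfl⟩
  rw [← hI] at hfin
  obtain ⟨T, hT⟩ : ∃ T : Submodule F (ℕ →₀ F),
    T = Submodule.span F ((fun i => Finsupp.single i (1 : F)) '' I) := ⟨_, rfl⟩
  have hTfg : T.FG := by
    rw [hT]
    exact Submodule.fg_span (hfin.image _)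
  have key : ∀ B : ℕ, ∀ v : ℕ →₀ F, (∀ j, B ≤ j → v j = 0) → v ∈ S ⊔ T := by
    intro B
    induction B with
    | zero =>
      intro v hv
      have : v = 0 := by
        ext j
        exact hv j (Nat.zero_le j)
      rw [this]
      exact Submodule.zero_mem _
    | succ B ih =>
      intro v hv
      by_cases hB : v B = 0
      · apply ih
        intro j hj
        rcases hj.eq_or_lt with rfl | hlt
        · exact hB
        · exact hv j hlt
      · by_cases hBI : B ∈ I
        · have h1 : v - v B • Finsupp.single B (1 : F) ∈ S ⊔ T := by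
            apply ih
            intro j hj
            rcases hj.eq_or_lt with rfl | hlt
            · simp
            · have h2 : Finsupp.single B (1 : F) j = 0 := by
                rw [Finsupp.single_apply, if_neg (by omega)]
              rw [Finsupp.sub_apply, Finsupp.smul_apply, h2, hv j hlt, smul_zero, sub_zero]
          have h2 : v B • Finsupp.single B (1 : F) ∈ S ⊔ T := by
            apply Submodule.smul_mem
            apply Submodule.mem_sup_right
            rw [hT]
            exact Submodule.subset_span ⟨B, hBI, rfl⟩
          have h3 := Submodule.add_mem _ h1 h2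
          rwa [sub_add_cancel] at h3
        · rw [hI] at hBI
          have hex : ∃ w ∈ S, w B ≠ 0 ∧ ∀ j, B < j → w j = 0 := by
            by_contra hcon
            apply hBI
            intro w hw hwB
            by_contra hno
            apply hcon
            refine ⟨w, hw, hwB, fun j hj => ?_⟩
            by_contra hne
            exact hno ⟨j, hj, hne⟩
          obtain ⟨w, hw, hwB, hwj⟩ := hex
          have h1 : v - (v B / w B) • w ∈ S ⊔ T := by
            apply ih
            intro j hj
            rcases hj.eq_or_lt with rfl | hlt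
            · rw [Finsupp.sub_apply, Finsupp.smul_apply, smul_eq_mul, div_mul_cancel₀ _ hwB,
                sub_self]
            · rw [Finsupp.sub_apply, Finsupp.smul_apply, hwj j hlt, hv j hlt, smul_zero, sub_zero]
          have h2 : (v B / w B) • w ∈ S ⊔ T :=
            Submodule.smul_mem _ _ (Submodule.mem_sup_left hw)
          have h3 := Submodule.add_mem _ h1 h2
          rwa [sub_add_cancel] at h3
  have htop : S ⊔ T = ⊤ := by
    rw [eq_top_iff]
    intro v _
    obtain ⟨B, hB⟩ : ∃ B : ℕ, ∀ j ∈ v.support, j < B := by
      refine ⟨v.support.sup id + 1, fun j hj => ?_⟩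
      have : j ≤ v.support.sup id := Finset.le_sup (f := id) hj
      omega
    apply key B
    intro j hj
    by_contra hne
    have := hB j (Finsupp.mem_support_iff.2 hne)
    omega
  have hmap : T.map S.mkQ = ⊤ := by
    have h1 := congrArg (Submodule.map S.mkQ) htop
    rwa [Submodule.map_sup, Submodule.mkQ_map_self, bot_sup_eq, Submodule.map_top,
      Submodule.range_mkQ] at h1
  have hfg : (⊤ : Submodule F ((ℕ →₀ F) ⧸ S)).FG := by
    rw [← hmap]
    exact hTfg.map _
  exact ⟨hfg⟩

end Pool.Agent.H752.SV
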